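import Pool.Agent.Run7.h131.AD.Iface

/-!
# Project AD, piece EXS: exponentials, sine and cosine
-/

set_option autoImplicit false

namespace Run7.h468.AD

open Run7.h131.AD

theorem exs_coeff_D (g : PS) (k : ℕ) :
    PowerSeries.coeff k (D g) = PowerSeries.coeff (k + 1) g * ((k : ℚ) + 1) := by
  unfold D
  rw [PowerSeries.coeff_derivative]

theorem exs_D_add (g h : PS) : D (g + h) = D g + D h := by
  unfold D; rw [map_add]

theorem exs_D_C (c : ℚ) (g : PS) : D (PowerSeries.C c * g) = PowerSeries.C c * D g := by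
  ext k
  rw [exs_coeff_D, PowerSeries.coeff_C_mul, PowerSeries.coeff_C_mul, exs_coeff_D]
  ring

theorem exs_ev (g : PS) : ev g = PowerSeries.coeff 0 g := by
  unfold ev; simp

theorem exs_tay (g : PS) (k : ℕ) :
    PowerSeries.coeff k (tay g) = PowerSeries.C ((k.factorial : ℚ)⁻¹) * D^[k] g := by
  unfold tay; rw [PowerSeries.coeff_mk]

theorem exs_xy (g h : PS) (k : ℕ) :
    PowerSeries.coeff k (inX g * inY h) = PowerSeries.C (PowerSeries.coeff k g) * h := by
  unfold inX inY; rw [PowerSeries.coeff_mul_C, PowerSeries.coeff_mk]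

theorem exs_fac (k : ℕ) : ((k + 1).factorial : ℚ) = ((k : ℚ) + 1) * k.factorial := by
  rw [Nat.factorial_succ]; push_cast; ring

theorem exs_alg (b : ℚ) :
    algebraMap ℚ (PowerSeries PS) b = PowerSeries.C (PowerSeries.C b) := by
  rw [PowerSeries.algebraMap_apply, PowerSeries.algebraMap_apply]
  rfl

theorem exs_exp (c : ℚ) (E : PS) (h0 : ev E ≠ 0) (hE : D E = PowerSeries.C c * E) :
    ∃ N M, AddThm (fun _ : Fin 1 => E) N M := by
  have h1 : ∀ k, D^[k] E = PowerSeries.C (c ^ k) * E := by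
    intro k
    induction k with
    | zero => simp
    | succ k ih =>
      rw [Function.iterate_succ_apply', ih, exs_D_C, hE, ← mul_assoc, ← map_mul, pow_succ]
  have h2 : ∀ k : ℕ, (k.factorial : ℚ) * PowerSeries.coeff k E = c ^ k * ev E := by
    intro k
    induction k with
    | zero => simp [exs_ev]
    | succ k ih =>
      have h3 := congrArg (PowerSeries.coeff k) hE
      rw [exs_coeff_D, PowerSeries.coeff_C_mul] at h3
      rw [exs_fac, pow_succ]
      linear_combination (k.factorial : ℚ) * h3 + c * ih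
  refine ⟨fun _ => MvPolynomial.C (ev E)⁻¹ * (MvPolynomial.X (Sum.inl 0) * MvPolynomial.X (Sum.inr 0)),
    fun _ => 1, fun i => by simp, fun i => ?_⟩
  ext1 k
  have h4 : MvPolynomial.aeval (pt2 (fun _ : Fin 1 => E))
      (MvPolynomial.C (ev E)⁻¹ * (MvPolynomial.X (Sum.inl 0) * MvPolynomial.X (Sum.inr 0))) =
      PowerSeries.C (PowerSeries.C (ev E)⁻¹) * (inX E * inY E) := by
    rw [map_mul, map_mul, MvPolynomial.aeval_X, MvPolynomial.aeval_X, ← MvPolynomial.algebraMap_eq,
      AlgHom.commutes, exs_alg]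
    rfl
  rw [h4, map_one, one_mul, exs_tay, h1, PowerSeries.coeff_C_mul, exs_xy, ← mul_assoc, ← mul_assoc,
    ← map_mul, ← map_mul]
  congr 2
  have hf : (k.factorial : ℚ) ≠ 0 := by exact_mod_cast k.factorial_ne_zero
  have := h2 k
  field_simp
  linear_combination -this

theorem exs_trig (b : ℚ) (u v : PS) (hu : ev u = 0) (hv : ev v = 1) (hDu : D u = v)
    (hDv : D v = PowerSeries.C b * u) : ∃ N M, AddThm ![u, v] N M := by
  obtain ⟨U, hUd⟩ : ∃ U : ℕ → ℚ, ∀ k, U k = (k.factorial : ℚ) * PowerSeries.coeff k u :=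
    ⟨_, fun _ => rfl⟩
  obtain ⟨V, hVd⟩ : ∃ V : ℕ → ℚ, ∀ k, V k = (k.factorial : ℚ) * PowerSeries.coeff k v :=
    ⟨_, fun _ => rfl⟩
  have hU0 : U 0 = 0 := by rw [hUd, ← exs_ev, hu]; simp
  have hV0 : V 0 = 1 := by rw [hVd, ← exs_ev, hv]; simp
  have hU : ∀ k, U (k + 1) = V k := by
    intro k
    have h3 := congrArg (PowerSeries.coeff k) hDu
    rw [exs_coeff_D] at h3
    rw [hUd, hVd, exs_fac]
    linear_combination (k.factorial : ℚ) * h3
  have hV : ∀ k, V (k + 1) = b * U k := by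
    intro k
    have h3 := congrArg (PowerSeries.coeff k) hDv
    rw [exs_coeff_D, PowerSeries.coeff_C_mul] at h3
    rw [hUd, hVd, exs_fac]
    linear_combination (k.factorial : ℚ) * h3
  have h1 : ∀ k, D^[k] u = PowerSeries.C (U k) * v + PowerSeries.C (V k) * u := by
    intro k
    induction k with
    | zero => simp [hU0, hV0]
    | succ k ih =>
      rw [Function.iterate_succ_apply', ih, exs_D_add, exs_D_C, exs_D_C, hDu, hDv, hU, hV, map_mul]
      ring
  have h2 : ∀ k, D^[k] v = PowerSeries.C (V k) * v + PowerSeries.C (b * U k) * u := by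
    intro k
    induction k with
    | zero => simp [hU0, hV0]
    | succ k ih =>
      rw [Function.iterate_succ_apply', ih, exs_D_add, exs_D_C, exs_D_C, hDu, hDv, hU, hV, map_mul,
        map_mul]
      ring
  have hf : ∀ k : ℕ, (k.factorial : ℚ) ≠ 0 := fun k => by exact_mod_cast k.factorial_ne_zero
  have e1 : ∀ k, PowerSeries.C (((k.factorial : ℕ) : ℚ)⁻¹) * PowerSeries.C (U k) =
      PowerSeries.C (PowerSeries.coeff k u) := by
    intro k
    rw [← map_mul, hUd, ← mul_assoc, inv_mul_cancel₀ (hf k), one_mul]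
  have e2 : ∀ k, PowerSeries.C (((k.factorial : ℕ) : ℚ)⁻¹) * PowerSeries.C (V k) =
      PowerSeries.C (PowerSeries.coeff k v) := by
    intro k
    rw [← map_mul, hVd, ← mul_assoc, inv_mul_cancel₀ (hf k), one_mul]
  have t1 : tay u = inX u * inY v + inX v * inY u := by
    ext1 k
    rw [exs_tay, h1, map_add, exs_xy, exs_xy, mul_add, ← mul_assoc, ← mul_assoc, e1, e2]
  have t2 : tay v = inX v * inY v + PowerSeries.C (PowerSeries.C b) * (inX u * inY u) := by
    ext1 k
    rw [exs_tay, h2, map_add, exs_xy, PowerSeries.coeff_C_mul, exs_xy, mul_add, ← mul_assoc, map_mul,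
      e2, ← e1]
    ring
  refine ⟨![MvPolynomial.X (Sum.inl 0) * MvPolynomial.X (Sum.inr 1) +
      MvPolynomial.X (Sum.inl 1) * MvPolynomial.X (Sum.inr 0),
      MvPolynomial.X (Sum.inl 1) * MvPolynomial.X (Sum.inr 1) +
      MvPolynomial.C b * (MvPolynomial.X (Sum.inl 0) * MvPolynomial.X (Sum.inr 0))],
    fun _ => 1, fun i => by simp, fun i => ?_⟩
  have p1 : pt2 ![u, v] (Sum.inl 0) = inX u := rfl
  have p2 : pt2 ![u, v] (Sum.inl 1) = inX v := rfl
  have p3 : pt2 ![u, v] (Sum.inr 0) = inY u := rfl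
  have p4 : pt2 ![u, v] (Sum.inr 1) = inY v := rfl
  have pC : MvPolynomial.aeval (pt2 ![u, v]) (MvPolynomial.C b) =
      PowerSeries.C (PowerSeries.C b) := by
    rw [← MvPolynomial.algebraMap_eq, AlgHom.commutes, exs_alg]
  fin_cases i
  · change MvPolynomial.aeval (pt2 ![u, v]) (1 : MvPolynomial (Fin 2 ⊕ Fin 2) ℚ) * tay u =
      MvPolynomial.aeval (pt2 ![u, v]) (MvPolynomial.X (Sum.inl 0) * MvPolynomial.X (Sum.inr 1) +
      MvPolynomial.X (Sum.inl 1) * MvPolynomial.X (Sum.inr 0))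
    rw [map_one, one_mul, map_add, map_mul, map_mul, MvPolynomial.aeval_X, MvPolynomial.aeval_X,
      MvPolynomial.aeval_X, MvPolynomial.aeval_X, p1, p2, p3, p4, t1]
  · change MvPolynomial.aeval (pt2 ![u, v]) (1 : MvPolynomial (Fin 2 ⊕ Fin 2) ℚ) * tay v =
      MvPolynomial.aeval (pt2 ![u, v]) (MvPolynomial.X (Sum.inl 1) * MvPolynomial.X (Sum.inr 1) +
      MvPolynomial.C b * (MvPolynomial.X (Sum.inl 0) * MvPolynomial.X (Sum.inr 0)))
    rw [map_one, one_mul, map_add, map_mul, map_mul, map_mul, MvPolynomial.aeval_X,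
      MvPolynomial.aeval_X, MvPolynomial.aeval_X, MvPolynomial.aeval_X, p1, p2, p3, p4, pC, t2]

theorem t_EXS : S_EXS := ⟨exs_exp, exs_trig⟩

end Run7.h468.AD
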