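import Pool.Agent.Run7.h131.AD.Iface

/-!
# Project AD, piece LP: `D ^ p` is a derivation modulo `p`
-/

set_option autoImplicit false

namespace Run7.h468.AD

open Run7.h131.AD Finset

theorem lp_leibniz {R : Type} [CommRing R] (Δ : R → R)
    (hadd : ∀ a b, Δ (a + b) = Δ a + Δ b) (hmul : ∀ a b, Δ (a * b) = a * Δ b + b * Δ a)
    (a b : R) (n : ℕ) : Δ^[n] (a * b) =
      ∑ ij ∈ antidiagonal n, (n.choose ij.1 : R) * (Δ^[ij.1] a * Δ^[ij.2] b) := by
  let Δ' : R →+ R := AddMonoidHom.mk' Δ hadd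
  have hΔ' : ∀ x, Δ x = Δ' x := fun x => rfl
  have h1 : Δ 1 = 0 := by
    have := hmul 1 1
    rw [one_mul, one_mul] at this
    have h2 : Δ 1 + Δ 1 = Δ 1 + 0 := by rw [add_zero]; exact this.symm
    exact add_left_cancel h2
  have hnat : ∀ m : ℕ, Δ (m : R) = 0 := by
    intro m
    rw [hΔ']
    induction m with
    | zero => simp
    | succ m ih => rw [Nat.cast_succ, map_add, ih, ← hΔ', h1, add_zero]
  induction n with
  | zero => simp
  | succ n ih =>
    rw [Function.iterate_succ_apply', ih, hΔ', map_sum,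
      Finset.sum_antidiagonal_choose_succ_mul (fun i j => Δ^[i] a * Δ^[j] b), ← Finset.sum_add_distrib]
    refine Finset.sum_congr rfl fun ij hij => ?_
    have hij' := mem_antidiagonal.1 hij
    have hc : n.choose ij.2 = n.choose ij.1 := by
      rw [← hij', Nat.choose_symm_add]
    rw [← hΔ', hmul, hnat, hmul, hc, Function.iterate_succ_apply', Function.iterate_succ_apply']
    ring

theorem t_LP : S_LP := by
  intro R _ Δ S p hp hadd hmul hS a ha b hb
  have hit : ∀ x ∈ S, ∀ n, Δ^[n] x ∈ S := by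
    intro x hx n
    induction n with
    | zero => exact hx
    | succ n ih => rw [Function.iterate_succ_apply']; exact hS _ ih
  obtain ⟨q, hq⟩ : ∃ q, p = q + 1 := ⟨p - 1, by have := hp.pos; omega⟩
  refine ⟨∑ k ∈ range q, ((p.choose (k + 1) / p : ℕ) : R) * (Δ^[k + 1] a * Δ^[p - (k + 1)] b), ?_, ?_⟩
  · refine S.sum_mem fun k _ => S.mul_mem (natCast_mem S _) (S.mul_mem (hit a ha _) (hit b hb _))
  · rw [lp_leibniz Δ hadd hmul a b p,
      Finset.Nat.sum_antidiagonal_eq_sum_range_succ_mk]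
    rw [Finset.sum_range_succ]
    have h2 : ∑ x ∈ range p, (p.choose x : R) * (Δ^[x] a * Δ^[p - x] b) =
        ∑ x ∈ range q, (p.choose (x + 1) : R) * (Δ^[x + 1] a * Δ^[p - (x + 1)] b) +
          a * Δ^[p] b := by
      conv_lhs => rw [hq]
      rw [Finset.sum_range_succ']
      simp [hq]
    simp only at h2 ⊢
    rw [h2, Finset.mul_sum]
    have h3 : ∀ x ∈ range q, (p.choose (x + 1) : R) * (Δ^[x + 1] a * Δ^[p - (x + 1)] b) =
        (p : R) * (((p.choose (x + 1) / p : ℕ) : R) * (Δ^[x + 1] a * Δ^[p - (x + 1)] b)) := by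
      intro x hx
      have hx' := mem_range.1 hx
      have hd : p ∣ p.choose (x + 1) := hp.dvd_choose_self (by omega) (by omega)
      have : ((p.choose (x + 1) : ℕ) : R) = (p : R) * ((p.choose (x + 1) / p : ℕ) : R) := by
        rw [← Nat.cast_mul, Nat.mul_div_cancel' hd]
      rw [this]; ring
    rw [Finset.sum_congr rfl h3]
    simp
    ring

end Run7.h468.AD
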