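import Pool.Agent.Run7.h131.AD.Iface

/-!
# Project AD, piece Z: `z` can be added to the functions
-/

set_option autoImplicit false

namespace Run7.h468.AD

open Run7.h131.AD

theorem z_tay : tay (PowerSeries.X : PS) = inX PowerSeries.X + inY PowerSeries.X := by
  have h1 : D (PowerSeries.X : PS) = 1 := by
    unfold D; simp
  have h2 : ∀ k : ℕ, D^[k + 2] (PowerSeries.X : PS) = 0 := by
    intro k
    induction k with
    | zero =>
      rw [Function.iterate_succ_apply, Function.iterate_succ_apply, Function.iterate_zero, id, h1]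
      unfold D; simp
    | succ k ih =>
      rw [Function.iterate_succ_apply', ih]
      unfold D; simp
  ext1 k
  rw [map_add]
  unfold tay inX inY
  rw [PowerSeries.coeff_mk, PowerSeries.coeff_mk, PowerSeries.coeff_C]
  match k with
  | 0 => simp
  | 1 => simp [h1]
  | k + 2 => simp [h2, PowerSeries.coeff_X]

theorem t_Z : S_Z := by
  intro s w N M h
  refine ⟨Fin.cons (MvPolynomial.X (Sum.inl 0) + MvPolynomial.X (Sum.inr 0))
    (fun i => MvPolynomial.rename (Sum.map Fin.succ Fin.succ) (N i)),
    Fin.cons 1 (fun i => MvPolynomial.rename (Sum.map Fin.succ Fin.succ) (M i)), ?_, ?_⟩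
  · intro i
    have e0 : pt0 (Fin.cons (PowerSeries.X : PS) w : Fin (s + 1) → PS) ∘ Sum.map Fin.succ Fin.succ =
        pt0 w := by
      funext x
      rcases x with x | x <;> simp [pt0, c0]
    refine Fin.cases ?_ (fun i => ?_) i
    · simp
    · rw [Fin.cons_succ, MvPolynomial.eval_rename, e0]
      exact h.unit i
  · intro i
    have e0 : pt2 (Fin.cons (PowerSeries.X : PS) w : Fin (s + 1) → PS) ∘ Sum.map Fin.succ Fin.succ =
        pt2 w := by
      funext x
      rcases x with x | x <;> simp [pt2]
    refine Fin.cases ?_ (fun i => ?_) i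
    · rw [Fin.cons_zero, Fin.cons_zero, Fin.cons_zero, z_tay]
      simp [pt2]
    · rw [Fin.cons_succ, Fin.cons_succ, Fin.cons_succ, MvPolynomial.aeval_rename,
        MvPolynomial.aeval_rename, e0]
      exact h.add i

end Run7.h468.AD
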